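import Mathlib
import Pool.Agent.K1H98.HP.Cap
import Pool.Agent.K1H98.HP.Det
import Pool.Agent.K1H98.HP.Prob

set_option autoImplicit false

open MeasureTheory ProbabilityTheory Filter Topology

namespace Pool.Agent.Results.MP_629fb1_pr.CapacityLawFails

/-- The law of a standard complex Gaussian random variable: density `exp (-|w|^2) / π`. -/
noncomputable def stdComplexGaussian : Measure ℂ :=
  volume.withDensity fun w => ENNReal.ofReal (Real.exp (-‖w‖ ^ 2) / Real.pi)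

/-- `ξ 0, ξ 1, ...` are independent standard complex Gaussian random variables. -/
structure IsStdGaussianSeq {Ω : Type} [MeasurableSpace Ω] (P : Measure Ω) (ξ : ℕ → Ω → ℂ) :
    Prop where
  measurable : ∀ n, Measurable (ξ n)
  indep : iIndepFun ξ P
  law : ∀ n, P.map (ξ n) = stdComplexGaussian

/-- The Gaussian entire function `f(z) = ∑ ξ_n z^n / √(n!)`. -/
noncomputable def gef {Ω : Type} (ξ : ℕ → Ω → ℂ) (ω : Ω) (z : ℂ) : ℂ :=
  ∑' n : ℕ, ξ n ω * z ^ n / (Real.sqrt (n.factorial : ℝ) : ℂ)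

/-- The hole event: `f` has no zero in `r K`. -/
def hole {Ω : Type} (ξ : ℕ → Ω → ℂ) (K : Set ℂ) (r : ℝ) : Set Ω :=
  {ω | ∀ z ∈ K, gef ξ ω (r * z) ≠ 0}

/-- The hole probability exponent `p_{H,K}(f; r)`. -/
noncomputable def holeExponent {Ω : Type} [MeasurableSpace Ω] (P : Measure Ω) (ξ : ℕ → Ω → ℂ)
    (K : Set ℂ) (r : ℝ) : ℝ :=
  -Real.log (P.real (hole ξ K r))

/-- The `n`-th diameter of `K`: the supremum of `(∏_{i<j} |z_i - z_j|) ^ (2 / (n (n-1)))` over
`n`-tuples of points of `K`. -/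
noncomputable def nthDiameter (K : Set ℂ) (n : ℕ) : ℝ :=
  sSup {d | ∃ z : Fin n → ℂ, (∀ i, z i ∈ K) ∧
    d = (∏ i, ∏ j ∈ Finset.Ioi i, ‖z i - z j‖) ^ (2 / ((n : ℝ) * (n - 1)))}

/-- `c` is the transfinite diameter (logarithmic capacity) of `K`. -/
def IsCapacity (K : Set ℂ) (c : ℝ) : Prop := Tendsto (nthDiameter K) atTop (𝓝 c)

/-- The half annulus `{1 - ε ≤ |z| ≤ 1, 0 ≤ Im z}`. -/
def halfAnnulus (ε : ℝ) : Set ℂ := {z | 1 - ε ≤ ‖z‖ ∧ ‖z‖ ≤ 1 ∧ 0 ≤ z.im}

/-- Parametrisation of the half annulus by the closed unit square. -/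
noncomputable def par (ε : ℝ) (p : ℝ × ℝ) : ℂ :=
  ((1 - ε * p.1 : ℝ) : ℂ) * Complex.exp ((Real.pi * p.2 : ℝ) * Complex.I)

/-- The closed unit square. -/
def square : Set (ℝ × ℝ) := Set.Icc 0 1 ×ˢ Set.Icc 0 1

lemma isCompact_square : IsCompact square := isCompact_Icc.prod isCompact_Icc

lemma par_cont (ε : ℝ) : Continuous (par ε) := by
  unfold par
  fun_prop

lemma par_norm {ε : ℝ} (hε1 : ε < 1) {p : ℝ × ℝ} (hp : p ∈ square) (_hε : 0 < ε) :
    ‖par ε p‖ = 1 - ε * p.1 := by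
  unfold par
  rw [norm_mul, Complex.norm_exp_ofReal_mul_I, mul_one, Complex.norm_real, Real.norm_eq_abs,
    abs_of_nonneg]
  have := hp.1.2
  have := hp.1.1
  nlinarith

lemma par_image {ε : ℝ} (hε : 0 < ε) (hε1 : ε < 1) : par ε '' square = halfAnnulus ε := by
  ext z
  constructor
  · rintro ⟨p, hp, rfl⟩
    have h1 := hp.1.1
    have h2 := hp.1.2
    have h3 := hp.2.1
    have h4 := hp.2.2
    refine ⟨?_, ?_, ?_⟩
    · rw [par_norm hε1 hp hε]
      nlinarith
    · rw [par_norm hε1 hp hε]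
      nlinarith
    · unfold par
      rw [Complex.im_ofReal_mul, Complex.exp_ofReal_mul_I_im]
      refine mul_nonneg (by nlinarith) (Real.sin_nonneg_of_nonneg_of_le_pi ?_ ?_)
      · exact mul_nonneg Real.pi_pos.le h3
      · nlinarith [Real.pi_pos]
  · rintro ⟨h1, h2, h3⟩
    have hz : z ≠ 0 := by
      intro h
      rw [h, norm_zero] at h1
      linarith
    refine ⟨((1 - ‖z‖) / ε, z.arg / Real.pi), ⟨⟨?_, ?_⟩, ⟨?_, ?_⟩⟩, ?_⟩
    · exact div_nonneg (by linarith) hε.le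
    · simp only
      rw [div_le_one hε]
      linarith
    · exact div_nonneg (Complex.arg_nonneg_iff.mpr h3) Real.pi_pos.le
    · simp only
      rw [div_le_one Real.pi_pos]
      exact Complex.arg_le_pi z
    · unfold par
      simp only
      have e1 : 1 - ε * ((1 - ‖z‖) / ε) = ‖z‖ := by
        field_simp
        ring
      have e2 : Real.pi * (z.arg / Real.pi) = z.arg := by
        field_simp [Real.pi_ne_zero]
      rw [e1, e2]
      exact Complex.norm_mul_exp_arg_mul_I z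

lemma par_injOn {ε : ℝ} (hε : 0 < ε) (hε1 : ε < 1) : Set.InjOn (par ε) square := by
  intro p hp p' hp' h
  have h1 : ‖par ε p‖ = ‖par ε p'‖ := by rw [h]
  rw [par_norm hε1 hp hε, par_norm hε1 hp' hε] at h1
  have h2 : p.1 = p'.1 := by
    have : ε * p.1 = ε * p'.1 := by linarith
    exact mul_left_cancel₀ hε.ne' this
  have h3 : (0 : ℝ) < 1 - ε * p'.1 := by
    have := hp'.1.2
    have := hp'.1.1
    nlinarith
  have h4 : Complex.exp ((Real.pi * p.2 : ℝ) * Complex.I) =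
      Complex.exp ((Real.pi * p'.2 : ℝ) * Complex.I) := by
    unfold par at h
    rw [h2] at h
    exact mul_left_cancel₀ (by exact_mod_cast h3.ne') h
  have harg : ∀ q ∈ square,
      (Complex.exp ((Real.pi * q.2 : ℝ) * Complex.I)).arg = Real.pi * q.2 := by
    intro q hq
    have hq1 := hq.2.1
    have hq2 := hq.2.2
    have hpi := Real.pi_pos
    have h5 : Real.pi * q.2 ∈ Set.Ioc (-Real.pi) Real.pi := by
      constructor
      · have : 0 ≤ Real.pi * q.2 := mul_nonneg hpi.le hq1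
        linarith
      · nlinarith
    have h6 := Complex.arg_cos_add_sin_mul_I h5
    rwa [← Complex.exp_mul_I] at h6
  have h7 : Real.pi * p.2 = Real.pi * p'.2 := by
    rw [← harg p hp, ← harg p' hp', h4]
  exact Prod.ext h2 (mul_left_cancel₀ Real.pi_ne_zero h7)

lemma half_isCompact {ε : ℝ} (hε : 0 < ε) (hε1 : ε < 1) : IsCompact (halfAnnulus ε) := by
  rw [← par_image hε hε1]
  exact isCompact_square.image (par_cont ε)

lemma half_isConnected {ε : ℝ} (hε : 0 < ε) (hε1 : ε < 1) : IsConnected (halfAnnulus ε) := by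
  rw [← par_image hε hε1]
  refine IsConnected.image ?_ _ (par_cont ε).continuousOn
  exact (isConnected_Icc (by norm_num)).prod (isConnected_Icc (by norm_num))

lemma half_interior {ε : ℝ} (hε : 0 < ε) (hε1 : ε < 1) : (interior (halfAnnulus ε)).Nonempty := by
  let U : Set ℂ := {z | 1 - ε < ‖z‖ ∧ ‖z‖ < 1 ∧ 0 < z.im}
  have hU : IsOpen U := by
    refine (isOpen_lt continuous_const continuous_norm).inter
      ((isOpen_lt continuous_norm continuous_const).inter
        (isOpen_lt continuous_const Complex.continuous_im))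
  have hsub : U ⊆ halfAnnulus ε := fun z hz => ⟨hz.1.le, hz.2.1.le, hz.2.2.le⟩
  refine ⟨((1 - ε / 2 : ℝ) : ℂ) * Complex.I, interior_maximal hsub hU ⟨?_, ?_, ?_⟩⟩
  · rw [norm_mul, Complex.norm_I, mul_one, Complex.norm_real, Real.norm_eq_abs, abs_of_nonneg]
    · linarith
    · linarith
  · rw [norm_mul, Complex.norm_I, mul_one, Complex.norm_real, Real.norm_eq_abs, abs_of_nonneg]
    · linarith
    · linarith
  · rw [Complex.im_ofReal_mul, Complex.I_im]
    linarith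

/-- The half annulus is homeomorphic to the closed square. -/
lemma half_homeo {ε : ℝ} (hε : 0 < ε) (hε1 : ε < 1) : Nonempty (square ≃ₜ halfAnnulus ε) := by
  have hbij : Set.BijOn (par ε) square (halfAnnulus ε) := by
    rw [← par_image hε hε1]
    exact (par_injOn hε hε1).bijOn_image
  have : CompactSpace square := isCompact_iff_compactSpace.mp isCompact_square
  let e : square ≃ halfAnnulus ε := hbij.equiv (par ε)
  have he : Continuous e := by
    refine Continuous.subtype_mk ?_ _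
    exact (par_cont ε).comp continuous_subtype_val
  exact ⟨he.homeoOfEquivCompactToT2⟩

lemma half_arc {ε : ℝ} (hε : 0 < ε) : ∀ t ∈ Set.Icc 0 Real.pi, Complex.exp (t * Complex.I) ∈ halfAnnulus ε := by
  intro t ht
  refine ⟨?_, ?_, ?_⟩
  · rw [Complex.norm_exp_ofReal_mul_I]
    linarith
  · rw [Complex.norm_exp_ofReal_mul_I]
  · rw [Complex.exp_ofReal_mul_I_im]
    exact Real.sin_nonneg_of_nonneg_of_le_pi ht.1 ht.2

lemma half_cap {ε : ℝ} (hε : 0 < ε) (hε1 : ε < 1) : ∃ c, IsCapacity (halfAnnulus ε) c ∧ 1 / 2 ≤ c := by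
  have hsub : halfAnnulus ε ⊆ Metric.closedBall 0 1 := by
    intro z hz
    rw [mem_closedBall_zero_iff]
    exact hz.2.1
  obtain ⟨T, hT, hb⟩ := Pool.Agent.R227.LP.exists_tdiam hsub
    (half_isConnected hε hε1).nonempty
  exact ⟨T, hT, hb _ (fun n hn => Pool.Agent.K1H98.HP.half_le_diamN hsub (half_arc hε) hn)⟩

open Pool.Agent.K1H98.HP in
/-- Quantitative lower bound for the hole probability. -/
lemma hole_ge {Ω : Type} [MeasurableSpace Ω] {P : Measure Ω} [IsProbabilityMeasure P]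
    {ξ : ℕ → Ω → ℂ} (h : IsStdGaussianSeq P ξ) {ε r : ℝ} (hε : 0 < ε) (hε1 : ε < 1) (hr : 1 ≤ r)
    {m q : ℕ} (hm : r ^ 2 ≤ m) (hq : (q : ℝ) ≤ ((1 - ε) * r) ^ 2) {κ : ℝ} (hκ : 0 ≤ κ)
    (hκ1 : ((m : ℝ) - q) * Real.log (Real.sqrt m / ((1 - ε) * r)) ≤ κ) :
    Real.exp (-(m * (2 * κ + 2 * Real.log (8 * m) + Real.log 2) +
      8 * m * (2 * Real.log (128 * m) + Real.log 2) + 1 + Real.log 2)) ≤
      P.real (hole ξ (halfAnnulus ε) r) := by
  have hm1 : 1 ≤ m := by
    have : (1 : ℝ) ≤ m := by nlinarith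
    exact_mod_cast this
  have hm0 : (0 : ℝ) < m := by exact_mod_cast hm1
  have hr0 : 0 < (1 - ε) * r := mul_pos (by linarith) (by linarith)
  have hqm : q ≤ m := by
    have : (q : ℝ) ≤ m := by
      refine hq.trans (le_trans ?_ hm)
      have : (1 - ε) * r ≤ r := by nlinarith
      exact pow_le_pow_left₀ hr0.le this 2
    exact_mod_cast this
  set G : ℝ := Real.sqrt m / ((1 - ε) * r) with hG
  have hG1 : 1 ≤ G := by
    rw [hG, le_div_iff₀ hr0, one_mul]
    refine le_trans ?_ (Real.le_sqrt_of_sq_le hm)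
    nlinarith
  have hGpow : G ^ (m - q) ≤ Real.exp κ := by
    have h1 : G ^ (m - q) = Real.exp (((m : ℝ) - q) * Real.log G) := by
      rw [← Nat.cast_sub hqm, Real.exp_nat_mul, Real.exp_log (by linarith)]
    rw [h1]
    exact Real.exp_le_exp.mpr hκ1
  set a : ℝ := Real.exp (-κ) / (8 * m) with ha
  set a' : ℝ := 1 / (128 * m) with ha'
  have hm1' : (1 : ℝ) ≤ m := by exact_mod_cast hm1
  have ha0 : 0 < a := by positivity
  have ha1 : a ≤ 1 := by
    rw [ha, div_le_one (by positivity)]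
    have : Real.exp (-κ) ≤ 1 := Real.exp_le_one_iff.mpr (by linarith)
    linarith
  have ha'0 : 0 < a' := by positivity
  have ha'1 : a' ≤ 1 := by
    rw [ha', div_le_one (by positivity)]
    linarith
  have hmain := event_prob (P := P) h.measurable h.indep
    (fun n => by rw [h.law n]; rfl) (show m ≤ 8 * m by omega) ha0.le ha1 ha'0.le ha'1
  refine le_trans (le_of_eq ?_) (hmain.trans (measureReal_mono ?_))
  · have e1 : a ^ 2 / 2 = Real.exp (-(2 * κ + 2 * Real.log (8 * m) + Real.log 2)) := by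
      rw [ha, div_pow, neg_add, neg_add, Real.exp_add, Real.exp_add]
      have e2 : Real.exp (-(2 * κ)) = Real.exp (-κ) ^ 2 := by
        rw [← Real.exp_nat_mul]
        congr 1
        push_cast
        ring
      have e3 : Real.exp (-(2 * Real.log (8 * m))) = ((8 * (m : ℝ)) ^ 2)⁻¹ := by
        rw [Real.exp_neg]
        congr 1
        have : (2 : ℝ) * Real.log (8 * m) = ((2 : ℕ) : ℝ) * Real.log (8 * m) := by norm_num
        rw [this, Real.exp_nat_mul, Real.exp_log (by positivity)]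
      have e4 : Real.exp (-Real.log 2) = 2⁻¹ := by
        rw [Real.exp_neg, Real.exp_log (by norm_num)]
      rw [e2, e3, e4]
      field_simp
    have e5 : a' ^ 2 / 2 = Real.exp (-(2 * Real.log (128 * m) + Real.log 2)) := by
      rw [ha', div_pow, neg_add, Real.exp_add]
      have e3 : Real.exp (-(2 * Real.log (128 * m))) = ((128 * (m : ℝ)) ^ 2)⁻¹ := by
        rw [Real.exp_neg]
        congr 1
        have : (2 : ℝ) * Real.log (128 * m) = ((2 : ℕ) : ℝ) * Real.log (128 * m) := by norm_num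
        rw [this, Real.exp_nat_mul, Real.exp_log (by positivity)]
      have e4 : Real.exp (-Real.log 2) = 2⁻¹ := by
        rw [Real.exp_neg, Real.exp_log (by norm_num)]
      rw [e3, e4]
      field_simp
    have e6 : Real.exp (-1) / 2 = Real.exp (-(1 + Real.log 2)) := by
      rw [neg_add, Real.exp_add, Real.exp_neg (Real.log 2), Real.exp_log (by norm_num)]
      ring
    rw [e1, e5, e6, ← Real.exp_nat_mul, ← Real.exp_nat_mul, ← Real.exp_add, ← Real.exp_add]
    congr 1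
    push_cast
    ring
  · rintro ω ⟨hω1, hω2, hω3, hω4⟩ z hz
    obtain ⟨hz1, hz2, -⟩ := hz
    have hznorm : ‖(r : ℂ) * z‖ = r * ‖z‖ := by
      rw [norm_mul, Complex.norm_real, Real.norm_eq_abs, abs_of_nonneg (by linarith)]
    set x : ℝ := ‖(r : ℂ) * z‖ with hx
    have hx1 : (1 - ε) * r ≤ x := by
      rw [hznorm]
      nlinarith
    have hx2 : x ≤ r := by
      rw [hznorm]
      nlinarith
    have hx0 : 0 < x := lt_of_lt_of_le hr0 hx1
    have hxm : x ^ 2 ≤ m := (pow_le_pow_left₀ hx0.le hx2 2).trans hm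
    have hnorm : ∀ n, ‖ξ n ω * ((r : ℂ) * z) ^ n / (Real.sqrt (n.factorial : ℝ) : ℂ)‖ =
        ‖ξ n ω‖ * AA x n := by
      intro n
      rw [norm_div, norm_mul, norm_pow, Complex.norm_real, Real.norm_eq_abs,
        abs_of_nonneg (Real.sqrt_nonneg _), mul_div_assoc]
      rfl
    have hA := AA_pos hx0 m
    refine nonvanish (a := AA x m) (m := m) (N := 8 * m) hA hm1 (by omega) ?_ ?_ ?_ ?_
    · intro n hn
      rw [hnorm]
      have h1 := AA_low hx0 hG1 hqm (m := m) (q := q)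
        (by
          rw [hG, div_mul_eq_mul_div, le_div_iff₀ hr0]
          exact mul_le_mul_of_nonneg_left hx1 (Real.sqrt_nonneg _))
        (by
          refine le_trans ?_ hx1
          exact (Real.sqrt_le_left hr0.le).mpr hq)
        hn.le
      have h2 : AA x n ≤ Real.exp κ * AA x m :=
        h1.trans (mul_le_mul_of_nonneg_right hGpow hA.le)
      calc ‖ξ n ω‖ * AA x n ≤ a * (Real.exp κ * AA x m) :=
            mul_le_mul (hω1 n hn) h2 (AA_pos hx0 n).le ha0.le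
        _ = AA x m / (8 * m) := by
            rw [ha, Real.exp_neg]
            field_simp
    · intro n hn hn'
      rw [hnorm]
      have h1 := AA_ge hx0 hxm (n - m)
      have h2 : m + (n - m) = n := by omega
      rw [h2] at h1
      calc ‖ξ n ω‖ * AA x n ≤ a' * AA x m :=
            mul_le_mul (hω3 n hn hn') h1 (AA_pos hx0 n).le ha'0.le
        _ = AA x m / (16 * ((8 * m : ℕ) : ℝ)) := by
            rw [ha']
            push_cast
            field_simp
            norm_num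
    · intro k
      rw [hnorm]
      have h1 := AA_geo hx0 hxm (4 * m + 1 + k)
      have h2 : 4 * m + (4 * m + 1 + k) = 8 * m + 1 + k := by ring
      rw [h2] at h1
      have h3 : (1 / 2 : ℝ) ^ (4 * m + 1 + k) ≤ 1 / 16 * (1 / 2) ^ (k + 1) := by
        have h4 : (1 / 2 : ℝ) ^ (4 * m) ≤ (1 / 2) ^ 4 :=
          pow_le_pow_of_le_one (by norm_num) (by norm_num) (by omega)
        have h5 : 4 * m + 1 + k = 4 * m + (k + 1) := by ring
        rw [h5, pow_add]
        have h6 : (0 : ℝ) ≤ (1 / 2) ^ (k + 1) := by positivity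
        calc (1 / 2 : ℝ) ^ (4 * m) * (1 / 2) ^ (k + 1) ≤ (1 / 2) ^ 4 * (1 / 2) ^ (k + 1) :=
              mul_le_mul_of_nonneg_right h4 h6
          _ = _ := by norm_num
      calc ‖ξ (8 * m + 1 + k) ω‖ * AA x (8 * m + 1 + k)
          ≤ (3 / 2 : ℝ) ^ (k + 1) * ((1 / 16 * (1 / 2) ^ (k + 1)) * AA x m) :=
            mul_le_mul (hω4 k) (h1.trans (mul_le_mul_of_nonneg_right h3 hA.le))
              (AA_pos hx0 _).le (by positivity)
        _ = AA x m * (1 / 16) * (3 / 4) ^ (k + 1) := by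
            have : (3 / 4 : ℝ) ^ (k + 1) = (3 / 2) ^ (k + 1) * (1 / 2) ^ (k + 1) := by
              rw [← mul_pow]
              norm_num
            rw [this]
            ring
    · rw [hnorm]
      nlinarith

lemma kappa_le {ε r : ℝ} (hε : 0 < ε) (hε1 : ε ≤ 1 / 9) (hr : 1 ≤ r) {m q : ℕ}
    (hm : r ^ 2 ≤ m) (hm1 : (m : ℝ) ≤ r ^ 2 + 1) (hq : (q : ℝ) ≤ ((1 - ε) * r) ^ 2)
    (hq1 : ((1 - ε) * r) ^ 2 - 1 ≤ q) :
    ((m : ℝ) - q) * Real.log (Real.sqrt m / ((1 - ε) * r)) ≤ 9 / 4 * ε ^ 2 * r ^ 2 + 2 := by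
  have hm0 : (0 : ℝ) < m := by nlinarith
  have hr0 : (0 : ℝ) < r := by linarith
  have h1 : 0 < 1 - ε := by linarith
  have hmq : (0 : ℝ) ≤ m - q := by
    have : ((1 - ε) * r) ^ 2 ≤ r ^ 2 := pow_le_pow_left₀ (by positivity) (by nlinarith) 2
    linarith
  have hmq2 : (m : ℝ) - q ≤ 2 * ε * r ^ 2 + 2 := by
    have : ((1 - ε) * r) ^ 2 = r ^ 2 - 2 * ε * r ^ 2 + ε ^ 2 * r ^ 2 := by ring
    have h2 : 0 ≤ ε ^ 2 * r ^ 2 := by positivity
    linarith
  have hL : Real.log (Real.sqrt m / ((1 - ε) * r)) ≤ 1 / (2 * r ^ 2) + 9 / 8 * ε := by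
    rw [Real.log_div (by positivity) (by positivity), Real.log_mul h1.ne' hr0.ne',
      Real.log_sqrt hm0.le]
    have h3 : Real.log m ≤ 2 * Real.log r + 1 / r ^ 2 := by
      have h4 : (m : ℝ) ≤ r ^ 2 * (1 + 1 / r ^ 2) := by
        rw [mul_add, mul_one_div_cancel (by positivity), mul_one]
        exact hm1
      have h5 : Real.log m ≤ Real.log (r ^ 2 * (1 + 1 / r ^ 2)) := Real.log_le_log hm0 h4
      rw [Real.log_mul (by positivity) (by positivity), Real.log_pow] at h5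
      have h6 : Real.log (1 + 1 / r ^ 2) ≤ 1 / r ^ 2 := by
        have := Real.log_le_sub_one_of_pos (x := 1 + 1 / r ^ 2) (by positivity)
        linarith
      push_cast at h5
      linarith
    have h7 : -Real.log (1 - ε) ≤ 9 / 8 * ε := by
      rw [← Real.log_inv]
      have h8 := Real.log_le_sub_one_of_pos (x := (1 - ε)⁻¹) (by positivity)
      have h9 : (1 - ε)⁻¹ - 1 ≤ 9 / 8 * ε := by
        have h10 : (1 - ε)⁻¹ ≤ 9 / 8 * ε + 1 := by
          rw [inv_le_iff_one_le_mul₀ h1]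
          nlinarith
        linarith
      linarith
    have h11 : 1 / (2 * r ^ 2) = 1 / r ^ 2 / 2 := by
      field_simp
    rw [h11]
    linarith
  have hL0 : 0 ≤ 1 / (2 * r ^ 2) + 9 / 8 * ε := by positivity
  calc ((m : ℝ) - q) * Real.log (Real.sqrt m / ((1 - ε) * r))
      ≤ ((m : ℝ) - q) * (1 / (2 * r ^ 2) + 9 / 8 * ε) := mul_le_mul_of_nonneg_left hL hmq
    _ ≤ (2 * ε * r ^ 2 + 2) * (1 / (2 * r ^ 2) + 9 / 8 * ε) :=
        mul_le_mul_of_nonneg_right hmq2 hL0
    _ = 9 / 4 * ε ^ 2 * r ^ 2 + (13 / 4 * ε + 1 / r ^ 2) := by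
        field_simp
        ring
    _ ≤ 9 / 4 * ε ^ 2 * r ^ 2 + 2 := by
        have : 1 / r ^ 2 ≤ 1 := by
          rw [div_le_one (by positivity)]
          nlinarith
        linarith

lemma cost_le {ε r : ℝ} (hε : 0 < ε) (hε1 : ε ≤ 1 / 9) (hr : 634 / ε ^ 2 ≤ r) {m : ℕ}
    (hm : r ^ 2 ≤ m) (hm1 : (m : ℝ) ≤ r ^ 2 + 1) :
    m * (2 * (9 / 4 * ε ^ 2 * r ^ 2 + 2) + 2 * Real.log (8 * m) + Real.log 2) +
      8 * m * (2 * Real.log (128 * m) + Real.log 2) + 1 + Real.log 2 ≤ 5 * ε ^ 2 * r ^ 4 := by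
  have hε2 : ε ^ 2 ≤ 1 := by nlinarith
  have hr1 : 634 ≤ ε ^ 2 * r := by
    rw [div_le_iff₀ (by positivity)] at hr
    linarith
  have hr2 : 1 ≤ r := by
    have : 634 ≤ 634 / ε ^ 2 := by
      rw [le_div_iff₀ (by positivity)]
      nlinarith
    linarith
  have hm0 : (0 : ℝ) < m := by nlinarith
  have hlog2 : Real.log 2 ≤ 3 / 4 := by
    have := Real.log_two_lt_d9
    linarith
  have hlog20 : 0 ≤ Real.log 2 := Real.log_nonneg (by norm_num)
  have hm2 : (m : ℝ) ≤ 2 * r ^ 2 := by nlinarith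
  have hlogm : Real.log (128 * m) ≤ 6 + 2 * r := by
    have h1 : Real.log (128 * m) ≤ Real.log (2 ^ 8 * r ^ 2) := by
      apply Real.log_le_log (by positivity)
      nlinarith
    have h0 : Real.log ((2 : ℝ) ^ 8 * r ^ 2) = 8 * Real.log 2 + 2 * Real.log r := by
      rw [Real.log_mul (by norm_num) (by positivity), Real.log_pow, Real.log_pow]
      norm_num
    rw [h0] at h1
    have h2 : Real.log r ≤ r := by
      have := Real.log_le_sub_one_of_pos (x := r) (by linarith)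
      linarith
    linarith
  have hlog8 : Real.log (8 * m) ≤ 6 + 2 * r := by
    refine le_trans (Real.log_le_log (by positivity) ?_) hlogm
    nlinarith
  have h3 : m * (2 * (9 / 4 * ε ^ 2 * r ^ 2 + 2) + 2 * Real.log (8 * m) + Real.log 2) ≤
      (r ^ 2 + 1) * (2 * (9 / 4 * ε ^ 2 * r ^ 2 + 2)) + 2 * r ^ 2 * (2 * (6 + 2 * r) + 1) := by
    have h4 : 0 ≤ 2 * (9 / 4 * ε ^ 2 * r ^ 2 + 2) := by positivity
    have h5 : (m : ℝ) * (2 * (9 / 4 * ε ^ 2 * r ^ 2 + 2)) ≤
        (r ^ 2 + 1) * (2 * (9 / 4 * ε ^ 2 * r ^ 2 + 2)) := mul_le_mul_of_nonneg_right hm1 h4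
    have h6 : (m : ℝ) * (2 * Real.log (8 * m) + Real.log 2) ≤
        m * (2 * (6 + 2 * r) + 1) := mul_le_mul_of_nonneg_left (by linarith) hm0.le
    have h7 : (m : ℝ) * (2 * (6 + 2 * r) + 1) ≤ 2 * r ^ 2 * (2 * (6 + 2 * r) + 1) :=
      mul_le_mul_of_nonneg_right hm2 (by linarith)
    linarith
  have h8 : 8 * m * (2 * Real.log (128 * m) + Real.log 2) ≤
      16 * r ^ 2 * (2 * (6 + 2 * r) + 1) := by
    have h6 : (8 * m : ℝ) * (2 * Real.log (128 * m) + Real.log 2) ≤
        8 * m * (2 * (6 + 2 * r) + 1) := mul_le_mul_of_nonneg_left (by linarith) (by positivity)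
    have h7 : (8 * m : ℝ) * (2 * (6 + 2 * r) + 1) ≤ 16 * r ^ 2 * (2 * (6 + 2 * r) + 1) :=
      mul_le_mul_of_nonneg_right (by linarith) (by linarith)
    linarith
  have h9 : (r ^ 2 + 1) * (2 * (9 / 4 * ε ^ 2 * r ^ 2 + 2)) + 2 * r ^ 2 * (2 * (6 + 2 * r) + 1) +
      16 * r ^ 2 * (2 * (6 + 2 * r) + 1) + 2 ≤ 9 / 2 * ε ^ 2 * r ^ 4 + 317 * r ^ 3 := by
    have e1 : (r ^ 2 + 1) * (2 * (9 / 4 * ε ^ 2 * r ^ 2 + 2)) + 2 * r ^ 2 * (2 * (6 + 2 * r) + 1) +
      16 * r ^ 2 * (2 * (6 + 2 * r) + 1) + 2 = 9 / 2 * ε ^ 2 * r ^ 4 +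
        (9 / 2 * (ε ^ 2 * r ^ 2) + 238 * r ^ 2 + 72 * r ^ 3 + 6) := by ring
    rw [e1]
    have h10 : r ^ 2 ≤ r ^ 3 := pow_le_pow_right₀ hr2 (by norm_num)
    have h11 : 1 ≤ r ^ 3 := one_le_pow₀ hr2
    have h13 : ε ^ 2 ≤ 1 / 9 * (1 / 9) := by nlinarith
    have h12 : ε ^ 2 * r ^ 2 ≤ 1 / 81 * r ^ 3 := by
      have : 0 ≤ r ^ 2 := by positivity
      nlinarith
    linarith
  have h14 : 317 * r ^ 3 ≤ 1 / 2 * ε ^ 2 * r ^ 4 := by
    have h15 : 0 ≤ r ^ 3 := by positivity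
    have h16 : 1 / 2 * ε ^ 2 * r ^ 4 = 1 / 2 * (ε ^ 2 * r) * r ^ 3 := by ring
    rw [h16]
    nlinarith
  linarith

/-- The main probability bound. -/
lemma hole_prob {Ω : Type} [MeasurableSpace Ω] {P : Measure Ω} [IsProbabilityMeasure P]
    {ξ : ℕ → Ω → ℂ} (h : IsStdGaussianSeq P ξ) {ε r : ℝ} (hε : 0 < ε) (hε1 : ε ≤ 1 / 9)
    (hr : 634 / ε ^ 2 ≤ r) :
    Real.exp (-(5 * ε ^ 2 * r ^ 4)) ≤ P.real (hole ξ (halfAnnulus ε) r) := by
  have hr2 : 1 ≤ r := by
    have : 634 ≤ 634 / ε ^ 2 := by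
      rw [le_div_iff₀ (by positivity)]
      nlinarith
    linarith
  have hm : r ^ 2 ≤ (⌈r ^ 2⌉₊ : ℝ) := Nat.le_ceil _
  have hm1 : (⌈r ^ 2⌉₊ : ℝ) ≤ r ^ 2 + 1 := (Nat.ceil_lt_add_one (by positivity)).le
  have hq : (⌊((1 - ε) * r) ^ 2⌋₊ : ℝ) ≤ ((1 - ε) * r) ^ 2 := Nat.floor_le (by positivity)
  have hq1 : ((1 - ε) * r) ^ 2 - 1 ≤ (⌊((1 - ε) * r) ^ 2⌋₊ : ℝ) := by
    have := Nat.lt_floor_add_one (((1 - ε) * r) ^ 2)
    linarith
  refine le_trans ?_ (hole_ge h hε (by linarith) hr2 hm hq (κ := 9 / 4 * ε ^ 2 * r ^ 2 + 2)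
    (by positivity) (kappa_le hε hε1 hr2 hm hm1 hq hq1))
  apply Real.exp_le_exp.mpr
  have := cost_le hε hε1 hr hm hm1
  linarith

/-- **Negative answer to the question.** For every `ε ∈ (0, 1/9]` the half annulus
`K = {1 - ε ≤ |z| ≤ 1, Im z ≥ 0}` is compact and connected, has non-empty interior, is
homeomorphic to a closed square, and has capacity `c ≥ 1/2`, but for every Gaussian entire
function the probability of a hole in `r K` is at least `exp (-5 ε² r⁴)` for all `r ≥ 634 / ε²`, and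
`p_{H,K}(f;r) / r⁴` does not converge to `(e²/4) c⁴`. Moreover Gaussian sequences exist. -/
theorem result :
    (∀ ε : ℝ, 0 < ε → ε ≤ 1 / 9 →
      IsCompact (halfAnnulus ε) ∧ IsConnected (halfAnnulus ε) ∧
      (interior (halfAnnulus ε)).Nonempty ∧ Nonempty (square ≃ₜ halfAnnulus ε) ∧
      ∃ c : ℝ, IsCapacity (halfAnnulus ε) c ∧ 1 / 2 ≤ c ∧
        ∀ (Ω : Type) [MeasurableSpace Ω] (P : Measure Ω) [IsProbabilityMeasure P]
          (ξ : ℕ → Ω → ℂ), IsStdGaussianSeq P ξ →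
          (∀ r : ℝ, 634 / ε ^ 2 ≤ r →
            Real.exp (-(5 * ε ^ 2 * r ^ 4)) ≤ P.real (hole ξ (halfAnnulus ε) r)) ∧
          ¬ Tendsto (fun r : ℝ => holeExponent P ξ (halfAnnulus ε) r / r ^ 4) atTop
            (𝓝 (Real.exp 2 / 4 * c ^ 4))) ∧
    (∃ (Ω : Type) (_ : MeasurableSpace Ω) (P : Measure Ω) (_ : IsProbabilityMeasure P)
      (ξ : ℕ → Ω → ℂ), IsStdGaussianSeq P ξ) := by
  refine ⟨fun ε hε hε1 => ?_, ?_⟩
  · have hε2 : ε < 1 := by linarith
    obtain ⟨c, hc, hc2⟩ := half_cap hε hε2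
    refine ⟨half_isCompact hε hε2, half_isConnected hε hε2, half_interior hε hε2,
      half_homeo hε hε2, c, hc, hc2, fun Ω _ P _ ξ h => ⟨fun r hr => hole_prob h hε hε1 hr, ?_⟩⟩
    intro ht
    have h1 : ∀ᶠ r : ℝ in atTop,
        holeExponent P ξ (halfAnnulus ε) r / r ^ 4 ≤ 5 * ε ^ 2 := by
      filter_upwards [eventually_ge_atTop (634 / ε ^ 2)] with r hr
      have hr0 : 0 < r := lt_of_lt_of_le (by positivity) hr
      rw [div_le_iff₀ (by positivity)]
      have h2 := hole_prob h hε hε1 hr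
      have h3 := Real.log_le_log (Real.exp_pos _) h2
      rw [Real.log_exp] at h3
      unfold holeExponent
      linarith
    have h4 := le_of_tendsto ht h1
    have h5 : (1 / 2 : ℝ) ^ 4 ≤ c ^ 4 := pow_le_pow_left₀ (by norm_num) hc2 4
    have h6 : (7 : ℝ) ≤ Real.exp 2 := by
      have h7 := Real.exp_one_gt_d9
      have h8 : Real.exp 2 = Real.exp 1 ^ 2 := by
        rw [← Real.exp_nat_mul]
        norm_num
      rw [h8]
      nlinarith
    have h9 : ε ^ 2 ≤ 1 / 9 * (1 / 9) := by nlinarith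
    have h10 : 7 / 4 * (1 / 2 : ℝ) ^ 4 ≤ Real.exp 2 / 4 * c ^ 4 := by
      refine mul_le_mul (by linarith) h5 (by norm_num) (by positivity)
    norm_num at h10
    linarith
  · have hp : IsProbabilityMeasure stdComplexGaussian :=
      inferInstanceAs (IsProbabilityMeasure Pool.Agent.Helper579.Cg.gam)
    refine ⟨ℕ → ℂ, inferInstance, Measure.infinitePi (fun _ => stdComplexGaussian), inferInstance,
      fun n ω => ω n, fun n => by fun_prop, ?_, fun n => ?_⟩
    · exact iIndepFun_infinitePi (X := fun _ ω => ω) (by fun_prop)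
    · exact (measurePreserving_eval_infinitePi (fun _ : ℕ => stdComplexGaussian) n).map_eq

end Pool.Agent.Results.MP_629fb1_pr.CapacityLawFails
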